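import Mathlib

set_option autoImplicit false

/-!
# No constant-factor product bound for the cop pebbling number

Idea.  The graph `B` consists of `n + 1` guard vertices and a tree whose nodes are lists of symbols.
A node whose head symbol is `(some κ, i)` (an exit node) is adjacent to guard vertex `κ`; nodes ending a
run of more than `J` plain symbols, and nodes of maximal length, are adjacent to guard vertex `0`.
In `B` two cops on each guard vertex confine the robber to a set of plain nodes, where cops coming from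
guard vertex `0` push him down; this costs `2 (n + 1) + 8 (J + 1)` cops.
In the product with a large complete graph the robber jumps to a layer without cops whenever no two
cops stand together in his column.  While his column is attacked he leaves through an exit node unless all
guard vertices of his own layer carry two cops; bringing them there costs `2 (n + 1)` cops for each new
layer, and in one layer he can be pushed down only logarithmically often, because the number of cops in
the column of his previous position is halved each time.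
-/

namespace Pool.Agent.Results.MP_d8b757_co.NoConstantFactor

open Finset

/-- In configuration `C` the cops can in one turn reach the configuration `C'`: `s u v` is the
number of pebbling steps made from `u` to `v` in this turn.  Every step is along an edge, at least
one step is made, each cop takes part in at most one step of the turn (so at most `C u` cops leave
`u`), and each step removes two cops from `u` and adds one cop at `v`. -/
def CopTurn {V : Type*} [Fintype V] (G : SimpleGraph V) (C C' : V → ℕ) : Prop :=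
  ∃ s : V → V → ℕ,
    (∀ u v, s u v ≠ 0 → G.Adj u v) ∧
    (∃ u v, s u v ≠ 0) ∧
    (∀ u, 2 * ∑ v, s u v ≤ C u) ∧
    (∀ v, C' v + 2 * ∑ w, s v w = C v + ∑ u, s u v)

/-- `CopsWin G C r`: in configuration `C`, with the robber on `r` and the cops to move, the cops can
force a capture. -/
inductive CopsWin {V : Type*} [Fintype V] (G : SimpleGraph V) : (V → ℕ) → V → Prop
  /-- the robber shares his vertex with a cop -/
  | caught {C : V → ℕ} {r : V} : 0 < C r → CopsWin G C r
  /-- the cops capture the robber by a turn -/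
  | capture {C C' : V → ℕ} {r : V} : CopTurn G C C' → 0 < C' r → CopsWin G C r
  /-- the cops have a turn after which they win whatever the robber does -/
  | chase {C C' : V → ℕ} {r : V} : CopTurn G C C' →
      (∀ r', r' = r ∨ G.Adj r r' → CopsWin G C' r') → CopsWin G C r

/-- The cop pebbling number: the least number of cops in a configuration that wins against every
starting vertex of the robber. -/
noncomputable def copNum {V : Type*} [Fintype V] (G : SimpleGraph V) : ℕ :=
  sInf {m : ℕ | ∃ C : V → ℕ, ∑ v, C v = m ∧ ∀ r, CopsWin G C r}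

section general

variable {V : Type*} [Fintype V] {G : SimpleGraph V}

lemma total_of_steps {C C' : V → ℕ} {s : V → V → ℕ}
    (h4 : ∀ v, C' v + 2 * ∑ w, s v w = C v + ∑ u, s u v) :
    ∑ v, C' v + ∑ u, ∑ v, s u v = ∑ v, C v := by
  have h := Finset.sum_congr rfl (fun v (_ : v ∈ (Finset.univ : Finset V)) => h4 v)
  rw [Finset.sum_add_distrib, Finset.sum_add_distrib, ← Finset.mul_sum] at h
  have h2 : ∑ v, ∑ u, s u v = ∑ u, ∑ v, s u v := Finset.sum_comm
  rw [h2] at h
  omega

lemma win_of_adj_stack [DecidableEq V] {C : V → ℕ} {u r : V} (hu : 2 ≤ C u) (hadj : G.Adj u r) :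
    CopsWin G C r := by
  refine CopsWin.capture (C' := fun v => C v - (if v = u then 2 else 0) + (if v = r then 1 else 0))
    ⟨fun x y => if x = u ∧ y = r then 1 else 0, ?_, ?_, ?_, ?_⟩ ?_
  · intro x y hxy
    by_cases h : x = u ∧ y = r
    · rw [h.1, h.2]; exact hadj
    · simp [h] at hxy
  · exact ⟨u, r, by simp⟩
  · intro x
    by_cases hx : x = u
    · subst hx
      simp only [true_and, Finset.sum_ite_eq', Finset.mem_univ, if_true]
      omega
    · simp [hx]
  · intro v
    have h1 : (∑ w, if v = u ∧ w = r then 1 else 0) = if v = u then 1 else 0 := by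
      by_cases hv : v = u <;> simp [hv]
    have h2 : (∑ w, if w = u ∧ v = r then 1 else 0) = if v = r then 1 else 0 := by
      by_cases hv : v = r <;> simp [hv]
    rw [h1, h2]
    by_cases hv : v = u
    · subst hv
      simp only [if_true]
      omega
    · simp [hv]
  · simp

lemma turn_from [DecidableEq V] {C : V → ℕ} (c : V) (g : V → ℕ) (hg : ∀ v, g v ≠ 0 → G.Adj c v)
    (hne : ∃ v, g v ≠ 0) (hC : 2 * ∑ v, g v ≤ C c) :
    CopTurn G C (fun v => C v - (if v = c then 2 * ∑ w, g w else 0) + g v) := by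
  refine ⟨fun x y => if x = c then g y else 0, ?_, ?_, ?_, ?_⟩
  · intro x y hxy
    by_cases h : x = c
    · simp only [h, if_true] at hxy
      rw [h]; exact hg y hxy
    · simp [h] at hxy
  · obtain ⟨v, hv⟩ := hne
    exact ⟨c, v, by simpa using hv⟩
  · intro x
    by_cases h : x = c
    · subst h; simpa using hC
    · simp [h]
  · intro v
    have h2 : (∑ w, if w = c then g v else 0) = g v := by simp
    rw [h2]
    by_cases hv : v = c
    · subst hv
      simp only [if_true]
      omega
    · simp [hv]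

lemma copNum_le {C : V → ℕ} {m : ℕ} (h1 : ∑ v, C v = m) (h2 : ∀ r, CopsWin G C r) :
    copNum G ≤ m := Nat.sInf_le ⟨C, h1, h2⟩

lemma lt_copNum {M : ℕ} (h : ∀ C : V → ℕ, ∑ v, C v ≤ M → ∃ r, ¬ CopsWin G C r) :
    M < copNum G := by
  have hne : {m : ℕ | ∃ C : V → ℕ, ∑ v, C v = m ∧ ∀ r, CopsWin G C r}.Nonempty :=
    ⟨_, fun _ => 1, rfl, fun r => CopsWin.caught (by simp)⟩
  by_contra hlt
  obtain ⟨C, hC1, hC2⟩ := Nat.sInf_mem hne
  have hle : ∑ v, C v ≤ M := by
    rw [hC1]; exact not_lt.mp hlt
  obtain ⟨r, hr⟩ := h C hle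
  exact hr (hC2 r)

/-- pigeonhole: among more than `∑ C` disjoint regions one is free of cops -/
lemma exists_clean {ι : Type*} [Fintype ι] (C : V → ℕ) (P : ι → V → Prop)
    (hdisj : ∀ i j v, P i v → P j v → i = j) (hlt : ∑ v, C v < Fintype.card ι) :
    ∃ i, ∀ v, P i v → C v = 0 := by
  classical
  by_contra hcon
  push Not at hcon
  choose f hf hf0 using hcon
  have hinj : Function.Injective f := by
    intro i j hij
    have := hf j
    rw [← hij] at this
    exact hdisj i j (f i) (hf i) this
  have h1 : Fintype.card ι ≤ ∑ i, C (f i) := by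
    calc Fintype.card ι = ∑ _i : ι, 1 := by simp
      _ ≤ ∑ i, C (f i) := Finset.sum_le_sum (fun i _ => Nat.one_le_iff_ne_zero.mpr (hf0 i))
  have h2 : ∑ i, C (f i) ≤ ∑ v, C v := by
    calc ∑ i, C (f i) = ∑ v ∈ Finset.univ.map ⟨f, hinj⟩, C v := by
          rw [Finset.sum_map]; rfl
      _ ≤ ∑ v, C v := Finset.sum_le_sum_of_subset (Finset.subset_univ _)
  omega

end general


/-- Symbols: `(none, i)` is a plain child, `(some κ, i)` is an exit child of class `κ`. -/
abbrev Sym (n R : ℕ) := Option (Fin (n + 1)) × Fin R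

/-- Length of the run of plain symbols at the head. -/
def run {n R : ℕ} : List (Sym n R) → ℕ
  | [] => 0
  | (none, _) :: t => run t + 1
  | (some _, _) :: _ => 0

/-- Node `l` is guarded by the guard vertex `κ`. -/
def Guard {n R : ℕ} (J D : ℕ) (κ : Fin (n + 1)) (l : List (Sym n R)) : Prop :=
  (∃ i t, l = (some κ, i) :: t) ∨ (κ = 0 ∧ (J < run l ∨ l.length = D))

/-- Vertices: guard vertices and tree nodes. -/
abbrev VB (n R D : ℕ) := Fin (n + 1) ⊕ {l : List (Sym n R) // l.length ≤ D}

/-- Adjacency of the graph `B`. -/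
def BAdj (n R J D : ℕ) : VB n R D → VB n R D → Prop
  | Sum.inl _, Sum.inl _ => False
  | Sum.inl κ, Sum.inr l => Guard J D κ l.1
  | Sum.inr l, Sum.inl κ => Guard J D κ l.1
  | Sum.inr l, Sum.inr l' => ∃ s, l.1 = s :: l'.1 ∨ l'.1 = s :: l.1

/-- The graph `B`. -/
def BG (n R J D : ℕ) : SimpleGraph (VB n R D) where
  Adj := BAdj n R J D
  symm := ⟨by
    rintro (a | a) (b | b) h
    · exact h
    · exact h
    · exact h
    · obtain ⟨s, h⟩ := h
      exact ⟨s, h.symm⟩⟩
  loopless := ⟨by
    rintro (a | a) h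
    · exact h
    · obtain ⟨s, h⟩ := h
      have : (s :: a.1).length = a.1.length := by
        rcases h with h | h <;> rw [← h]
      simp at this⟩

noncomputable instance instFintypeNode (n R D : ℕ) :
    Fintype {l : List (Sym n R) // l.length ≤ D} :=
  (List.finite_length_le (Sym n R) D).fintype

section upper

variable {n R J D : ℕ}

lemma unguarded_length {l : {l : List (Sym n R) // l.length ≤ D}}
    (h : ∀ κ, ¬ Guard J D κ l.1) : l.1.length < D := by
  have h0 := h 0
  unfold Guard at h0
  push Not at h0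
  have := (h0.2 rfl).2
  have := l.2
  omega

lemma unguarded_run {l : List (Sym n R)} (h : ∀ κ, ¬ Guard J D κ l) : run l ≤ J := by
  have h0 := h 0
  unfold Guard at h0
  push Not at h0
  exact (h0.2 rfl).1

/-- With two cops on every guard vertex and enough further cops on guard vertex `0`, the cops
catch a robber on an unguarded node. -/
lemma push (i0 : Fin R) : ∀ (m : ℕ) (C : VB n R D → ℕ) (l : {l : List (Sym n R) // l.length ≤ D}),
    (∀ κ, 2 ≤ C (Sum.inl κ)) → 2 + 8 * m ≤ C (Sum.inl 0) →
    (∀ κ, ¬ Guard J D κ l.1) → J + 1 ≤ run l.1 + m →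
    CopsWin (BG n R J D) C (Sum.inr l) := by
  classical
  intro m
  induction m with
  | zero =>
    intro C l _ _ hl hJ
    have := unguarded_run hl
    omega
  | succ m ih =>
    intro C l hC hC0 hl hJ
    have hlen := unguarded_length hl
    set el : VB n R D := Sum.inr ⟨(some 0, i0) :: l.1, by simpa using hlen⟩ with hel
    set ep : VB n R D := Sum.inr ⟨(some 0, i0) :: l.1.tail, by
      have : l.1.tail.length ≤ l.1.length := by simp
      simp only [List.length_cons]; omega⟩ with hep
    set g : VB n R D → ℕ := fun v => (if v = el then 2 else 0) + (if v = ep then 2 else 0) with hg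
    have hsum : ∑ v, g v = 4 := by
      simp [hg, Finset.sum_add_distrib]
    have hadj0 : ∀ v, g v ≠ 0 → (BG n R J D).Adj (Sum.inl 0) v := by
      intro v hv
      have h : v = el ∨ v = ep := by
        by_contra hcon
        push Not at hcon
        simp [hg, hcon.1, hcon.2] at hv
      rcases h with h | h
      · rw [h]; exact Or.inl ⟨i0, _, rfl⟩
      · rw [h]; exact Or.inl ⟨i0, _, rfl⟩
    have hturn := turn_from (G := BG n R J D) (C := C) (Sum.inl 0) g hadj0
      ⟨el, by simp [hg]⟩ (by rw [hsum]; omega)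
    rw [hsum] at hturn
    set C' : VB n R D → ℕ := fun v => C v - (if v = Sum.inl 0 then 2 * 4 else 0) + g v with hC'
    have hC'el : 2 ≤ C' el := by
      simp only [hC', hg, if_true]; omega
    have hC'ep : 2 ≤ C' ep := by
      simp only [hC', hg, if_true]; omega
    have hC'0 : 2 + 8 * m ≤ C' (Sum.inl 0) := by
      simp only [hC', if_true]; omega
    have hC'κ : ∀ κ, 2 ≤ C' (Sum.inl κ) := by
      intro κ
      by_cases hκ : κ = 0
      · rw [hκ]; omega
      · have : (Sum.inl κ : VB n R D) ≠ Sum.inl 0 := by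
          intro h; exact hκ (Sum.inl.inj h)
        have := hC κ
        simp only [hC']
        rw [if_neg (by assumption)]
        omega
    refine CopsWin.chase hturn ?_
    rintro r' (hr | hr)
    · rw [hr]
      exact win_of_adj_stack hC'el ⟨(some 0, i0), Or.inl rfl⟩
    · rcases r' with κ | l'
      · exact absurd hr (hl κ)
      · obtain ⟨s, h | h⟩ := hr
        · -- the parent
          refine win_of_adj_stack hC'ep ?_
          refine ⟨(some 0, i0), Or.inl ?_⟩
          show (some 0, i0) :: l.1.tail = (some 0, i0) :: l'.1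
          rw [h]; rfl
        · by_cases hG : ∃ κ, Guard J D κ l'.1
          · obtain ⟨κ, hκ⟩ := hG
            exact win_of_adj_stack (hC'κ κ) hκ
          · push Not at hG
            refine ih C' l' hC'κ hC'0 hG ?_
            have hrun : run l'.1 = run l.1 + 1 := by
              rcases s with ⟨s | s, i⟩
              · rw [h]; rfl
              · exact absurd (Or.inl ⟨i, l.1, h⟩) (hG s)
            omega

lemma copNum_BG_le (i0 : Fin R) : copNum (BG n R J D) ≤ 2 * (n + 1) + 8 * (J + 1) := by
  classical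
  let C : VB n R D → ℕ := fun v => Sum.elim (fun κ => 2 + if κ = 0 then 8 * (J + 1) else 0) (fun _ => 0) v
  refine copNum_le (C := C) ?_ ?_
  · simp only [C, Fintype.sum_sum_type, Sum.elim_inl, Sum.elim_inr, Finset.sum_const_zero, add_zero,
      Finset.sum_add_distrib, Finset.sum_ite_eq', Finset.mem_univ, if_true, Finset.sum_const,
      Finset.card_univ, Fintype.card_fin, smul_eq_mul]
    ring
  · rintro (κ | l)
    · exact CopsWin.caught (by simp [C])
    · by_cases hG : ∃ κ, Guard J D κ l.1
      · obtain ⟨κ, hκ⟩ := hG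
        exact win_of_adj_stack (u := Sum.inl κ) (by simp [C]) hκ
      · push Not at hG
        exact push i0 (J + 1) C l (by intro κ; simp [C]) (by simp [C]) hG (by omega)

lemma BG_connected (hD : 1 ≤ D) (i0 : Fin R) : (BG n R J D).Connected := by
  rw [SimpleGraph.connected_iff_exists_forall_reachable]
  refine ⟨Sum.inr ⟨[], by simp⟩, ?_⟩
  have key : ∀ (l : List (Sym n R)) (hl : l.length ≤ D),
      (BG n R J D).Reachable (Sum.inr ⟨[], by simp⟩) (Sum.inr ⟨l, hl⟩) := by
    intro l
    induction l with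
    | nil => intro hl; exact SimpleGraph.Reachable.refl _
    | cons s t ih =>
      intro hl
      have ht : t.length ≤ D := by simp at hl; omega
      refine (ih ht).trans (SimpleGraph.Adj.reachable ?_)
      exact ⟨s, Or.inr rfl⟩
  rintro (κ | l)
  · refine (key [(some κ, i0)] (by simpa using hD)).trans (SimpleGraph.Adj.reachable ?_)
    exact Or.inl ⟨i0, [], rfl⟩
  · exact key l.1 l.2

lemma copNum_top_le (k : ℕ) : copNum (⊤ : SimpleGraph (Fin (k + 1))) ≤ 2 := by
  classical
  refine copNum_le (C := fun v => if v = 0 then 2 else 0) (by simp) ?_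
  intro r
  by_cases hr : r = 0
  · exact CopsWin.caught (by simp [hr])
  · exact win_of_adj_stack (u := 0) (by simp) (by simpa using fun h => hr h.symm)

end upper

section lower

variable {n R J D Q : ℕ}

/-- Tree nodes. -/
abbrev Node (n R D : ℕ) := {l : List (Sym n R) // l.length ≤ D}

/-- The product of `B` with the complete graph on `Q` vertices (the factor gives the layers). -/
abbrev PG (n R J D Q : ℕ) : SimpleGraph (VB n R D × Fin Q) :=
  BG n R J D □ (⊤ : SimpleGraph (Fin Q))

/-- The robber's invariant, at a moment when the cops are to move. -/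
structure Inv (J M L : ℕ) (C : VB n R D × Fin Q → ℕ) (l : Node n R D) (h : Fin Q) : Prop where
  free : C (Sum.inr l, h) = 0
  safe : ∀ u, (PG n R J D Q).Adj (Sum.inr l, h) u → C u ≤ 1
  short : l.1.length + ∑ v, C v ≤ M + 1
  rest : (∃ κ i t, l.1 = (some κ, i) :: t ∧ ∑ u, C (u, h) + ∑ v, C v ≤ M) ∨
    (∃ i t, l.1 = (none, i) :: t ∧ run l.1 ≤ J ∧ ∃ S0 k : ℕ,
      ∑ u, C (u, h) + ∑ v, C v ≤ S0 ∧ S0 ≤ M ∧
      L * S0 + 2 * (n + 1) * run l.1 ≤ 2 * (n + 1) + L * M + 2 * (n + 1) * k ∧ k ≤ L ∧
      (k = 0 ∨ (∑ v, C v + 2 * (n + 1) ≤ S0 ∧ (∀ h', C (Sum.inr l, h') = 0) ∧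
        (∀ (l' : Node n R D) (s : Sym n R), l'.1 = s :: l.1 → ∀ h', C (Sum.inr l', h') = 0) ∧
        ∃ p : Node n R D, l.1.tail = p.1 ∧ (∑ h', C (Sum.inr p, h')) * 2 ^ k ≤ 2 * M)))

lemma adj_cases {l : Node n R D} {h : Fin Q} {u : VB n R D × Fin Q}
    (hu : (PG n R J D Q).Adj (Sum.inr l, h) u) :
    (∃ κ, u = (Sum.inl κ, h) ∧ Guard J D κ l.1) ∨
    (∃ l' : Node n R D, ∃ s, u = (Sum.inr l', h) ∧ (l.1 = s :: l'.1 ∨ l'.1 = s :: l.1)) ∨
    (∃ h', u = (Sum.inr l, h')) := by
  rcases u with ⟨w, h'⟩
  rw [SimpleGraph.boxProd_adj] at hu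
  rcases hu with ⟨h1, h2⟩ | ⟨h1, h2⟩
  · simp only at h1 h2
    subst h2
    rcases w with κ | l'
    · exact Or.inl ⟨κ, rfl, h1⟩
    · obtain ⟨s, hs⟩ := h1
      exact Or.inr (Or.inl ⟨l', s, rfl, hs⟩)
  · simp only at h1 h2
    subst h2
    exact Or.inr (Or.inr ⟨h', rfl⟩)

/-- stepping to a clean child is safe -/
lemma child_safe {C : VB n R D × Fin Q → ℕ} {l l1 : Node n R D} {h : Fin Q} {s1 : Sym n R}
    (hl1 : l1.1 = s1 :: l.1) (hfree : C (Sum.inr l, h) = 0)
    (hcol : ∀ h', C (Sum.inr l1, h') = 0)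
    (hch : ∀ (l' : Node n R D) (s : Sym n R), l'.1 = s :: l1.1 → ∀ h', C (Sum.inr l', h') = 0)
    (hG : ∀ κ, Guard J D κ l1.1 → C (Sum.inl κ, h) ≤ 1) :
    ∀ u, (PG n R J D Q).Adj (Sum.inr l1, h) u → C u ≤ 1 := by
  intro u hu
  rcases adj_cases hu with ⟨κ, rfl, hκ⟩ | ⟨l', s, rfl, h1 | h1⟩ | ⟨h', rfl⟩
  · exact hG κ hκ
  · rw [hl1] at h1
    have : l' = l := Subtype.ext (List.cons.inj h1).2.symm
    rw [this, hfree]; omega
  · rw [hch l' s h1 h]; omega
  · rw [hcol h']; omega

lemma exists_clean_child {C : VB n R D × Fin Q → ℕ} (hlt : ∑ v, C v < R) (l : Node n R D)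
    (hlen : l.1.length + 1 ≤ D) (o : Option (Fin (n + 1))) :
    ∃ (i : Fin R) (l1 : Node n R D), l1.1 = (o, i) :: l.1 ∧ (∀ h', C (Sum.inr l1, h') = 0) ∧
      (∀ (l' : Node n R D) (s : Sym n R), l'.1 = s :: l1.1 → ∀ h', C (Sum.inr l', h') = 0) := by
  obtain ⟨i, hi⟩ := exists_clean (ι := Fin R) C
    (fun i v => ∃ l' : Node n R D, v.1 = Sum.inr l' ∧
      (l'.1 = (o, i) :: l.1 ∨ ∃ s, l'.1 = s :: (o, i) :: l.1)) (by
        rintro i j v ⟨l', hv, h1⟩ ⟨l'', hv', h2⟩
        have hll : l' = l'' := by
          have := hv.symm.trans hv'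
          exact Sum.inr.inj this
        subst hll
        rcases h1 with h1 | ⟨s, h1⟩ <;> rcases h2 with h2 | ⟨s', h2⟩
        · rw [h1] at h2
          have := (List.cons.inj h2).1
          exact (Prod.mk.inj this).2
        · rw [h1] at h2
          have := congrArg List.length h2
          simp at this
        · rw [h1] at h2
          have := congrArg List.length h2
          simp at this
        · rw [h1] at h2
          have := (List.cons.inj (List.cons.inj h2).2).1
          exact (Prod.mk.inj this).2) (by simpa using hlt)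
  refine ⟨i, ⟨(o, i) :: l.1, by simpa using hlen⟩, rfl, ?_, ?_⟩
  · intro h'
    exact hi _ ⟨_, rfl, Or.inl rfl⟩
  · intro l' s hl' h'
    exact hi _ ⟨l', rfl, Or.inr ⟨s, hl'⟩⟩

lemma step_main {M L : ℕ} (hJ1 : 1 ≤ J) (hD : M + 2 ≤ D) (hR : M < R) (hQ : M < Q)
    (hL : M < 2 ^ (L + 1)) (hLM : L * M + 2 * (n + 1) ≤ 2 * (n + 1) * J)
    {C C' : VB n R D × Fin Q → ℕ} {l : Node n R D} {h : Fin Q}
    (hinv : Inv J M L C l h) (hturn : CopTurn (PG n R J D Q) C C') :
    C' (Sum.inr l, h) = 0 ∧
    ∃ (l' : Node n R D) (h' : Fin Q),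
      ((Sum.inr l', h') = ((Sum.inr l, h) : VB n R D × Fin Q) ∨
        (PG n R J D Q).Adj (Sum.inr l, h) (Sum.inr l', h')) ∧ Inv J M L C' l' h' := by
  classical
  obtain ⟨s, hs1, ⟨u0, v0, huv0⟩, hs3, hs4⟩ := hturn
  have hself : ∀ u v, 2 * s u v ≤ C u := by
    intro u v
    have h1 : s u v ≤ ∑ w, s u w := Finset.single_le_sum (fun _ _ => Nat.zero_le _) (Finset.mem_univ v)
    have := hs3 u
    omega
  have htot := total_of_steps hs4
  set t := ∑ u, ∑ v, s u v with ht
  have htpos : 1 ≤ t := by
    have h1 : s u0 v0 ≤ ∑ w, s u0 w := Finset.single_le_sum (fun _ _ => Nat.zero_le _) (Finset.mem_univ v0)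
    have h2 : ∑ w, s u0 w ≤ t :=
      Finset.single_le_sum (f := fun u => ∑ w, s u w) (fun _ _ => Nat.zero_le _) (Finset.mem_univ u0)
    omega
  -- the robber is not caught
  have hfree' : C' (Sum.inr l, h) = 0 := by
    have h1 : ∑ u, s u (Sum.inr l, h) = 0 := by
      apply Finset.sum_eq_zero
      intro u _
      by_contra hne
      have hadj := hs1 _ _ hne
      have := hinv.safe u hadj.symm
      have := hself u (Sum.inr l, h)
      omega
    have := hs4 (Sum.inr l, h)
    rw [h1, hinv.free] at this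
    omega
  refine ⟨hfree', ?_⟩
  -- layer count
  have hlayer : ∑ u, C' (u, h) + ∑ v, C' v ≤ ∑ u, C (u, h) + ∑ v, C v := by
    have h1 : ∑ u, C' (u, h) ≤ ∑ u, C (u, h) + ∑ u, ∑ w, s w (u, h) := by
      rw [← Finset.sum_add_distrib]
      apply Finset.sum_le_sum
      intro u _
      have := hs4 (u, h)
      omega
    have h2 : ∑ u, ∑ w, s w (u, h) ≤ t := by
      have h3 : t = ∑ v, ∑ w, s w v := by rw [ht]; exact Finset.sum_comm
      rw [h3, Fintype.sum_prod_type]
      apply Finset.sum_le_sum
      intro u _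
      exact Finset.single_le_sum (f := fun y => ∑ w, s w (u, y)) (fun _ _ => Nat.zero_le _)
        (Finset.mem_univ h)
    omega
  have hshort := hinv.short
  have hS'R : ∑ v, C' v < R := by omega
  have hS'Q : ∑ v, C' v < Q := by omega
  have hlenD : l.1.length + 1 < D := by omega
  rcases hinv.rest with ⟨κ, i, t', hl, hE⟩ | ⟨i, t', hl, hrun, S0, k, hE, hS0, hacc, hkL, hk⟩
  · -- robber on an exit node: step to a clean plain child
    obtain ⟨i1, l1, hl1, hcol, hch⟩ := exists_clean_child hS'R l (by omega) none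
    have hrun1 : run l1.1 = 1 := by
      rw [hl1, hl]; rfl
    refine ⟨l1, h, Or.inr ?_, ?_, ?_, ?_, ?_⟩
    · rw [SimpleGraph.boxProd_adj]
      exact Or.inl ⟨⟨_, Or.inr hl1⟩, rfl⟩
    · exact hcol h
    · apply child_safe hl1 hfree' hcol hch
      intro κ' hκ'
      exfalso
      rcases hκ' with ⟨i2, t2, h2⟩ | ⟨_, h2 | h2⟩
      · rw [hl1] at h2
        have := (List.cons.inj h2).1
        simp at this
      · omega
      · rw [hl1] at h2
        simp at h2
        omega
    · rw [hl1]
      simp only [List.length_cons]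
      omega
    · refine Or.inr ⟨i1, l.1, hl1, by omega, M, 0, by omega, le_refl _, ?_, Nat.zero_le _, Or.inl rfl⟩
      rw [hrun1]; ring_nf; omega
  · -- robber on a plain node
    have hX : (∑ h', C' (Sum.inr l, h')) * 2 ^ k ≤ M := by
      rcases hk with hk0 | ⟨_, hcol, hch, p, hp, hXp⟩
      · subst hk0
        simp only [pow_zero, mul_one]
        have : ∑ h', C' (Sum.inr l, h') ≤ ∑ v, C' v := by
          rw [Fintype.sum_prod_type]
          exact Finset.single_le_sum (f := fun x => ∑ y, C' (x, y)) (fun _ _ => Nat.zero_le _)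
            (Finset.mem_univ (Sum.inr l))
        omega
      · have hlp : l.1 = (none, i) :: p.1 := by
          rw [← hp, hl]; rfl
        have h1 : ∀ h', 2 * C' (Sum.inr l, h') ≤ C (Sum.inr p, h') := by
          intro h'
          have h2 : ∑ u, s u (Sum.inr l, h') = s (Sum.inr p, h') (Sum.inr l, h') := by
            apply Finset.sum_eq_single
            · intro u _ hu
              by_contra hne
              have hadj := hs1 _ _ hne
              have h3 := hself u (Sum.inr l, h')
              rcases adj_cases hadj.symm with ⟨κ, rfl, hκ⟩ | ⟨l', s', rfl, h5 | h5⟩ | ⟨h'', rfl⟩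
              · rcases hκ with ⟨i2, t2, h2⟩ | ⟨_, h2 | h2⟩
                · rw [hl] at h2
                  have := (List.cons.inj h2).1
                  simp at this
                · omega
                · omega
              · rw [hlp] at h5
                have : l' = p := Subtype.ext (List.cons.inj h5).2.symm
                subst this
                exact hu rfl
              · rw [hch l' s' h5 h'] at h3
                omega
              · rw [hcol h''] at h3
                omega
            · intro hh; exact absurd (Finset.mem_univ _) hh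
          have h3 := hs4 (Sum.inr l, h')
          rw [h2, hcol h'] at h3
          have h4 := hself (Sum.inr p, h') (Sum.inr l, h')
          omega
        have h2 : 2 * ∑ h', C' (Sum.inr l, h') ≤ ∑ h', C (Sum.inr p, h') := by
          rw [Finset.mul_sum]
          exact Finset.sum_le_sum (fun h' _ => h1 h')
        have h3 : 2 * ((∑ h', C' (Sum.inr l, h')) * 2 ^ k) ≤ 2 * M := by
          calc 2 * ((∑ h', C' (Sum.inr l, h')) * 2 ^ k)
              = (2 * ∑ h', C' (Sum.inr l, h')) * 2 ^ k := by ring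
            _ ≤ (∑ h', C (Sum.inr p, h')) * 2 ^ k := Nat.mul_le_mul_right _ h2
            _ ≤ 2 * M := hXp
        omega
    by_cases hstack : ∀ h', C' (Sum.inr l, h') ≤ 1
    · -- jump to a clean layer
      obtain ⟨h2, hh2⟩ := exists_clean (ι := Fin Q) C' (fun i v => v.2 = i)
        (by rintro i j v rfl rfl; rfl) (by simpa using hS'Q)
      refine ⟨l, h2, ?_, hh2 _ rfl, ?_, by omega, Or.inr ⟨i, t', hl, hrun, ∑ v, C' v, 0, ?_, by omega, ?_,
        Nat.zero_le _, Or.inl rfl⟩⟩
      · by_cases hh : h2 = h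
        · left; rw [hh]
        · right
          rw [SimpleGraph.boxProd_adj]
          exact Or.inr ⟨fun e => hh e.symm, rfl⟩
      · intro u hu
        rcases adj_cases hu with ⟨κ, rfl, hκ⟩ | ⟨l', s, rfl, h1⟩ | ⟨h', rfl⟩
        · rw [hh2 _ rfl]; omega
        · rw [hh2 _ rfl]; omega
        · exact hstack h'
      · have : ∑ u, C' (u, h2) = 0 := Finset.sum_eq_zero (fun u _ => hh2 _ rfl)
        omega
      · rcases hk with hk0 | ⟨hk1, _⟩
        · subst hk0
          have : L * ∑ v, C' v ≤ L * S0 := Nat.mul_le_mul_left _ (by omega)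
          omega
        · have h5 : L * (∑ v, C' v + 2 * (n + 1)) ≤ L * S0 := Nat.mul_le_mul_left _ (by omega)
          have h6 : 2 * (n + 1) * k ≤ 2 * (n + 1) * L := Nat.mul_le_mul_left _ hkL
          have h7 : L * (∑ v, C' v + 2 * (n + 1)) = L * ∑ v, C' v + 2 * (n + 1) * L := by ring
          omega
    · push Not at hstack
      obtain ⟨h2, hh2⟩ := hstack
      have hX2 : 2 ≤ ∑ h', C' (Sum.inr l, h') := by
        have : C' (Sum.inr l, h2) ≤ ∑ h', C' (Sum.inr l, h') :=
          Finset.single_le_sum (f := fun y => C' (Sum.inr l, y)) (fun _ _ => Nat.zero_le _) (Finset.mem_univ h2)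
        omega
      have hk1 : k + 1 ≤ L := by
        have h5 : 2 ^ (k + 1) ≤ M := by
          calc 2 ^ (k + 1) = 2 * 2 ^ k := by ring
            _ ≤ (∑ h', C' (Sum.inr l, h')) * 2 ^ k := Nat.mul_le_mul_right _ hX2
            _ ≤ M := hX
        have h6 : 2 ^ (k + 1) < 2 ^ (L + 1) := lt_of_le_of_lt h5 hL
        have := (Nat.pow_lt_pow_iff_right (by norm_num : 1 < 2)).mp h6
        omega
      by_cases hexit : ∃ κ, C' (Sum.inl κ, h) ≤ 1
      · obtain ⟨κ, hκ⟩ := hexit
        obtain ⟨i1, l1, hl1, hcol, hch⟩ := exists_clean_child hS'R l (by omega) (some κ)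
        refine ⟨l1, h, Or.inr ?_, ?_, ?_, ?_, ?_⟩
        · rw [SimpleGraph.boxProd_adj]
          exact Or.inl ⟨⟨_, Or.inr hl1⟩, rfl⟩
        · exact hcol h
        · apply child_safe hl1 hfree' hcol hch
          intro κ' hκ'
          rcases hκ' with ⟨i2, t2, h2⟩ | ⟨_, h2 | h2⟩
          · rw [hl1] at h2
            have := (Prod.mk.inj (List.cons.inj h2).1).1
            have : κ = κ' := Option.some.inj this
            rw [← this]; exact hκ
          · rw [hl1] at h2
            simp [run] at h2
          · rw [hl1] at h2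
            simp at h2
            omega
        · rw [hl1]
          simp only [List.length_cons]
          omega
        · exact Or.inl ⟨κ, i1, l.1, hl1, by omega⟩
      · push Not at hexit
        have hE2 : 2 * (n + 1) ≤ ∑ u, C' (u, h) := by
          rw [Fintype.sum_sum_type]
          have : ∑ _κ : Fin (n + 1), 2 ≤ ∑ κ : Fin (n + 1), C' (Sum.inl κ, h) :=
            Finset.sum_le_sum (fun κ _ => hexit κ)
          simp only [Finset.sum_const, Finset.card_univ, Fintype.card_fin, smul_eq_mul] at this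
          omega
        obtain ⟨i1, l1, hl1, hcol, hch⟩ := exists_clean_child hS'R l (by omega) none
        have hrun1 : run l1.1 = run l.1 + 1 := by
          rw [hl1]; rfl
        have h5 : L * (2 * (n + 1)) ≤ L * S0 := Nat.mul_le_mul_left _ (by omega)
        have h6 : 2 * (n + 1) * (k + 1) ≤ 2 * (n + 1) * L := Nat.mul_le_mul_left _ hk1
        have hrunJ : run l.1 + 1 ≤ J := by
          have h7 : L * (2 * (n + 1)) = 2 * (n + 1) * L := by ring
          have h8 : 2 * (n + 1) * (k + 1) = 2 * (n + 1) * k + 2 * (n + 1) := by ring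
          have h9 : 2 * (n + 1) * (run l.1 + 1) ≤ 2 * (n + 1) * J := by
            have : 2 * (n + 1) * (run l.1 + 1) = 2 * (n + 1) * run l.1 + 2 * (n + 1) := by ring
            omega
          exact Nat.le_of_mul_le_mul_left h9 (by omega)
        refine ⟨l1, h, Or.inr ?_, ?_, ?_, ?_, ?_⟩
        · rw [SimpleGraph.boxProd_adj]
          exact Or.inl ⟨⟨_, Or.inr hl1⟩, rfl⟩
        · exact hcol h
        · apply child_safe hl1 hfree' hcol hch
          intro κ' hκ'
          exfalso
          rcases hκ' with ⟨i2, t2, h2⟩ | ⟨_, h2 | h2⟩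
          · rw [hl1] at h2
            have := (List.cons.inj h2).1
            simp at this
          · omega
          · rw [hl1] at h2
            simp at h2
            omega
        · rw [hl1]
          simp only [List.length_cons]
          omega
        · refine Or.inr ⟨i1, l.1, hl1, by omega, S0, k + 1, by omega, hS0, ?_, hk1, Or.inr ⟨by omega, hcol, hch, l, ?_, ?_⟩⟩
          · rw [hrun1]
            have h8 : 2 * (n + 1) * (k + 1) = 2 * (n + 1) * k + 2 * (n + 1) := by ring
            have h9 : 2 * (n + 1) * (run l.1 + 1) = 2 * (n + 1) * run l.1 + 2 * (n + 1) := by ring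
            omega
          · rw [hl1]; rfl
          · calc (∑ h', C' (Sum.inr l, h')) * 2 ^ (k + 1)
                = 2 * ((∑ h', C' (Sum.inr l, h')) * 2 ^ k) := by ring
              _ ≤ 2 * M := Nat.mul_le_mul_left _ hX

lemma not_win {M L : ℕ} (hJ1 : 1 ≤ J) (hD : M + 2 ≤ D) (hR : M < R) (hQ : M < Q)
    (hL : M < 2 ^ (L + 1)) (hLM : L * M + 2 * (n + 1) ≤ 2 * (n + 1) * J)
    {C : VB n R D × Fin Q → ℕ} {r : VB n R D × Fin Q} (hw : CopsWin (PG n R J D Q) C r) :
    ∀ (l : Node n R D) (h : Fin Q), r = (Sum.inr l, h) → ¬ Inv J M L C l h := by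
  induction hw with
  | caught h0 =>
    intro l h hr hinv
    rw [hr, hinv.free] at h0
    omega
  | capture hturn h0 =>
    intro l h hr hinv
    have := (step_main hJ1 hD hR hQ hL hLM hinv hturn).1
    rw [hr, this] at h0
    omega
  | chase hturn _ ih =>
    intro l h hr hinv
    obtain ⟨_, l', h', hmove, hinv'⟩ := step_main hJ1 hD hR hQ hL hLM hinv hturn
    subst hr
    exact ih _ hmove l' h' rfl hinv'

lemma lower_bound {M L : ℕ} (hJ1 : 1 ≤ J) (hD : M + 2 ≤ D) (hR : M < R) (hQ : M < Q)
    (hL : M < 2 ^ (L + 1)) (hLM : L * M + 2 * (n + 1) ≤ 2 * (n + 1) * J) :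
    M < copNum (PG n R J D Q) := by
  apply lt_copNum
  intro C hC
  obtain ⟨i1, l1, hl1, hcol, hch⟩ :=
    exists_clean_child (C := C) (by omega) (⟨[], by simp⟩ : Node n R D) (by simp; omega) none
  obtain ⟨h2, hh2⟩ := exists_clean (ι := Fin Q) C (fun i v => v.2 = i)
    (by rintro i j v rfl rfl; rfl) (by simpa using lt_of_le_of_lt hC hQ)
  refine ⟨(Sum.inr l1, h2), fun hw => not_win hJ1 hD hR hQ hL hLM hw l1 h2 rfl ?_⟩
  have hrun1 : run l1.1 = 1 := by rw [hl1]; rfl
  have hlen : l1.1.length = 1 := by rw [hl1]; rfl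
  refine ⟨hcol h2, ?_, by omega, Or.inr ⟨i1, [], hl1, by omega, M, 0, ?_, le_refl _, ?_,
    Nat.zero_le _, Or.inl rfl⟩⟩
  · apply child_safe hl1 (hh2 _ rfl) hcol hch
    intro κ _
    rw [hh2 _ rfl]; omega
  · have : ∑ u, C (u, h2) = 0 := Finset.sum_eq_zero (fun u _ => hh2 _ rfl)
    omega
  · rw [hrun1]; ring_nf; omega

end lower

/-- For every real number `a` there are finite connected simple graphs `G` and `H`, with `H` a complete
graph, such that `π^c(G □ H) > a · π^c(G) · π^c(H)`. -/
theorem result (a : ℝ) :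
    ∃ (V W : Type) (_ : Fintype V) (_ : Fintype W) (G : SimpleGraph V) (H : SimpleGraph W),
      G.Connected ∧ H.Connected ∧ H = ⊤ ∧
      a * (copNum G : ℝ) * (copNum H : ℝ) < (copNum (G □ H) : ℝ) := by
  -- parameters
  obtain ⟨K, hK⟩ : ∃ K : ℕ, 1 ≤ K ∧ 52 * |a| ≤ K := by
    obtain ⟨K, hK⟩ := exists_nat_ge (52 * |a|)
    exact ⟨K + 1, by omega, by push_cast; linarith⟩
  obtain ⟨e, he⟩ : ∃ e : ℕ, (K + e) * K ≤ 2 ^ (e + 1) := by
    refine ⟨4 * K, ?_⟩
    have h1 : K < 2 ^ K := Nat.lt_two_pow_self
    have h2 : K * K ≤ 2 ^ K * 2 ^ K := Nat.mul_le_mul h1.le h1.le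
    have h3 : (2 : ℕ) ^ (4 * K + 1) = 2 * (2 ^ K * 2 ^ K) * (2 ^ K * 2 ^ K) := by
      rw [pow_succ, pow_mul']; ring
    have h4 : 4 ≤ 2 ^ K * 2 ^ K := by
      have : 2 ^ 1 ≤ 2 ^ K := Nat.pow_le_pow_right (by norm_num) hK.1
      calc 4 = 2 ^ 1 * 2 ^ 1 := by norm_num
        _ ≤ 2 ^ K * 2 ^ K := Nat.mul_le_mul this this
    calc (K + 4 * K) * K = 5 * (K * K) := by ring
      _ ≤ 5 * (2 ^ K * 2 ^ K) := Nat.mul_le_mul_left _ h2
      _ ≤ 2 * 4 * (2 ^ K * 2 ^ K) := by omega
      _ ≤ 2 * (2 ^ K * 2 ^ K) * (2 ^ K * 2 ^ K) := by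
        apply Nat.mul_le_mul_right
        exact Nat.mul_le_mul_left _ h4
      _ = 2 ^ (4 * K + 1) := h3.symm
  set N : ℕ := 2 ^ e with hN
  have hN1 : 1 ≤ N := Nat.one_le_two_pow
  obtain ⟨n, hn⟩ : ∃ n, N = n + 1 := ⟨N - 1, by omega⟩
  set M : ℕ := K * N with hM
  set J : ℕ := N + 1 with hJ
  set L : ℕ := K + e with hL
  have hJ1 : 1 ≤ J := by omega
  have hML : M < 2 ^ (L + 1) := by
    have h1 : K < 2 ^ K := Nat.lt_two_pow_self
    calc K * 2 ^ e < 2 ^ K * 2 ^ e := Nat.mul_lt_mul_of_pos_right h1 (by positivity)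
      _ = 2 ^ (K + e) := by rw [pow_add]
      _ ≤ 2 ^ (K + e + 1) := Nat.pow_le_pow_right (by norm_num) (by omega)
  have hLM : L * M + 2 * (n + 1) ≤ 2 * (n + 1) * J := by
    rw [← hn, hJ, hM]
    have h2 : (K + e) * K ≤ 2 * N := by
      rw [hN]; calc (K + e) * K ≤ 2 ^ (e + 1) := he
        _ = 2 * 2 ^ e := by ring
    calc L * (K * N) + 2 * N = ((K + e) * K) * N + 2 * N := by rw [hL]; ring
      _ ≤ (2 * N) * N + 2 * N := by
        have := Nat.mul_le_mul_right N h2
        omega
      _ = 2 * N * (N + 1) := by ring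
  have hlow := lower_bound (n := n) (R := M + 1) (J := J) (D := M + 2) (Q := M + 1) (M := M) (L := L)
    hJ1 (le_refl _) (by omega) (by omega) hML hLM
  have hup := copNum_BG_le (n := n) (J := J) (D := M + 2) (⟨0, by omega⟩ : Fin (M + 1))
  refine ⟨VB n (M + 1) (M + 2), Fin (M + 1), inferInstance, inferInstance, BG n (M + 1) J (M + 2), ⊤,
    BG_connected (by omega) ⟨0, by omega⟩, SimpleGraph.connected_top, rfl, ?_⟩
  have hup2 : copNum (BG n (M + 1) J (M + 2)) ≤ 26 * N := by omega
  have htop := copNum_top_le M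
  have hup2' : (copNum (BG n (M + 1) J (M + 2)) : ℝ) ≤ 26 * N := by exact_mod_cast hup2
  have htop' : (copNum (⊤ : SimpleGraph (Fin (M + 1))) : ℝ) ≤ 2 := by exact_mod_cast htop
  have hlow' : (M : ℝ) < (copNum (PG n (M + 1) J (M + 2) (M + 1)) : ℝ) := by exact_mod_cast hlow
  have hM' : (M : ℝ) = K * N := by rw [hM]; push_cast; ring
  have h0 : (0 : ℝ) ≤ (copNum (BG n (M + 1) J (M + 2)) : ℝ) := Nat.cast_nonneg _
  have h0' : (0 : ℝ) ≤ (copNum (⊤ : SimpleGraph (Fin (M + 1))) : ℝ) := Nat.cast_nonneg _
  have hN0 : (0 : ℝ) ≤ N := Nat.cast_nonneg _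
  calc a * (copNum (BG n (M + 1) J (M + 2)) : ℝ) * (copNum (⊤ : SimpleGraph (Fin (M + 1))) : ℝ)
      ≤ |a| * (copNum (BG n (M + 1) J (M + 2)) : ℝ) * (copNum (⊤ : SimpleGraph (Fin (M + 1))) : ℝ) := by
        apply mul_le_mul_of_nonneg_right _ h0'
        exact mul_le_mul_of_nonneg_right (le_abs_self a) h0
    _ ≤ |a| * (26 * N) * 2 := by
        apply mul_le_mul _ htop' h0' (by positivity)
        exact mul_le_mul_of_nonneg_left hup2' (abs_nonneg a)
    _ = (52 * |a|) * N := by ring
    _ ≤ K * N := mul_le_mul_of_nonneg_right hK.2 hN0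
    _ = M := hM'.symm
    _ < _ := hlow'

end Pool.Agent.Results.MP_d8b757_co.NoConstantFactor
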